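import Pool.Agent.H43.KS.Stm

/-!
# KS-BARR: the barrier with moving scale (helper878)
-/

set_option autoImplicit false

open MeasureTheory Metric Set Filter Topology
open scoped RealInnerProductSpace ENNReal

namespace Pool.Agent.H878.KS

open Pool.Agent.H821.BZ Pool.Agent.H43.KS

theorem BARR : S_BARR := by
  intro d T t₁ f N M M' μ hper hcont hdec hdiff ht₁ hμc hμm hμ1 hMc hMm hM0 hMd hinit hbar
  have hMpos : ∀ t ∈ Ico t₁ T, 0 < M t := fun t ht => hM0.trans_le (hMm ⟨le_rfl, ht₁.2⟩ ht ht.1)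
  refine barrierG (N := N) (B := fun t v => M t * φs N (μ t) v) hper hcont hdec hdiff ht₁.1
    ?_ ?_ hinit ?_
  · have h1 : ContinuousOn (fun p : ℝ × V d => M p.1) (Ico t₁ T ×ˢ (univ : Set (V d))) := by
      have hfst : ContinuousOn (Prod.fst : ℝ × V d → ℝ) (Ico t₁ T ×ˢ (univ : Set (V d))) :=
        continuousOn_fst
      exact hMc.comp hfst (fun p hp => hp.1)
    exact h1.mul (φs_cont N hμc fun t ht => lt_of_lt_of_le one_pos (hμ1 t ht))
  · intro t₂ ht₂
    refine ⟨M t₁, hM0, fun t ht v => ?_⟩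
    have htI : t ∈ Ico t₁ T := ⟨ht.1, ht.2.trans_lt ht₂.2⟩
    have h1 : M t₁ ≤ M t := hMm ⟨le_rfl, ht₁.2⟩ htI ht.1
    have h2 : ((1 + ‖v‖) ^ (2 * N))⁻¹ ≤ φs N (μ t) v := by
      refine (φ_lower N v).trans ?_
      rw [← φs_one]
      exact φs_mono N one_pos (hμ1 t htI) v
    exact mul_le_mul h1 h2 (by positivity) (hMpos t htI).le
  · intro t₀ ht₀ x₀ v₀ hle heq
    have hD := hbar t₀ ht₀ x₀ v₀ (fun w => hle x₀ w) heq
    obtain ⟨D, hDe⟩ : ∃ D, D = fderiv ℝ (fun p : ℝ × V d => f p.1 p.2 v₀) (t₀, x₀) (1, v₀) :=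
      ⟨_, rfl⟩
    obtain ⟨p, hp⟩ : ∃ p, p = φs N (μ t₀) v₀ := ⟨_, rfl⟩
    have hp0 : 0 < p := by rw [hp]; exact φs_pos N _ v₀
    rw [← hDe, ← hp] at hD
    have hlt : (D + M' t₀ * p) / 2 / p < M' t₀ := by
      rw [div_lt_iff₀ hp0]
      linarith
    refine ⟨(D + M' t₀ * p) / 2, ?_, ?_⟩
    · rw [← hDe]
      linarith
    · have hslope := (hasDerivAt_iff_tendsto_slope.1 (hMd t₀ ht₀)).mono_left
        (nhdsWithin_mono t₀ (s := Iio t₀) fun t ht => by
          simp only [mem_compl_iff, mem_singleton_iff]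
          exact ne_of_lt ht)
      filter_upwards [hslope.eventually (lt_mem_nhds hlt), Ico_mem_nhdsLT ht₀.1] with t h1 h2
      have htI : t ∈ Ico t₁ T := ⟨h2.1, h2.2.trans ht₀.2⟩
      have ht0I : t₀ ∈ Ico t₁ T := ⟨ht₀.1.le, ht₀.2⟩
      have hty : 0 < t₀ - t := by linarith [h2.2]
      have es : (M t - M t₀) / (t - t₀) = (M t₀ - M t) / (t₀ - t) := by
        rw [← neg_div_neg_eq (M t - M t₀) (t - t₀), neg_sub, neg_sub]
      rw [slope_def_field, es, lt_div_iff₀ hty] at h1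
      have hμ' : φs N (μ t) v₀ ≤ p := by
        rw [hp]
        exact φs_mono N (lt_of_lt_of_le one_pos (hμ1 t htI)) (hμm htI ht0I h2.2.le) v₀
      have h3 := mul_le_mul_of_nonneg_left hμ' (hMpos t htI).le
      have h4 : (D + M' t₀ * p) / 2 * (t₀ - t) ≤ (M t₀ - M t) * p := by
        have h5 := mul_le_mul_of_nonneg_right h1.le hp0.le
        calc (D + M' t₀ * p) / 2 * (t₀ - t) = (D + M' t₀ * p) / 2 / p * (t₀ - t) * p := by
              field_simp
          _ ≤ (M t₀ - M t) * p := h5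
      show (D + M' t₀ * p) / 2 * (t₀ - t) ≤ M t₀ * φs N (μ t₀) v₀ - M t * φs N (μ t) v₀
      rw [← hp]
      linarith

end Pool.Agent.H878.KS
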