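import Pool.Agent.H43.KS.Stm

/-!
# KS-MOMT: the moment bound with a tail (helper878)
-/

set_option autoImplicit false

open MeasureTheory Metric Set Filter Topology
open scoped RealInnerProductSpace ENNReal

namespace Pool.Agent.H878.KS

open Pool.Agent.H821.BZ Pool.Agent.H43.KS

/-- the pointwise bound of the second part -/
theorem momt_pt {d : ℕ} (n N' : ℕ) {f : V d → ℝ} (hf0 : ∀ w, 0 ≤ f w) {K μ R : ℝ} (hK : 0 ≤ K)
    (hμ : 0 < μ) (hR : 1 ≤ R) (hle : ∀ w, f w ≤ K * φs (n + 1 + N') μ w) (w : V d) :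
    f w * (1 + ‖w‖ / μ) ^ 2 ≤ 4 * R ^ 2 * f w + 2 * K * (R ^ (2 * N'))⁻¹ * φs n μ w := by
  obtain ⟨x, hx⟩ : ∃ x, x = ‖w‖ / μ := ⟨_, rfl⟩
  have hx0 : 0 ≤ x := by rw [hx]; positivity
  have hφ := φs_pos n μ w
  rw [← hx]
  rcases le_total x R with h | h
  · have h1 : (1 + x) ^ 2 ≤ 4 * R ^ 2 := by nlinarith
    have h2 := mul_le_mul_of_nonneg_left h1 (hf0 w)
    have h3 : 0 ≤ 2 * K * (R ^ (2 * N'))⁻¹ * φs n μ w := by positivity
    linarith
  · have hR0 : 0 < R := by linarith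
    have h0 : 0 ≤ 4 * R ^ 2 * f w := mul_nonneg (by positivity) (hf0 w)
    have e1 : ∀ m : ℕ, φs m μ w = ((1 + x ^ 2) ^ m)⁻¹ := by
      intro m
      rw [φs_eq m hμ, hx, div_pow]
    have hx2 : 0 < 1 + x ^ 2 := by positivity
    have h1 : (1 + x) ^ 2 ≤ 2 * (1 + x ^ 2) := by nlinarith [sq_nonneg (1 - x)]
    have h2 : ((1 + x ^ 2) ^ N')⁻¹ ≤ (R ^ (2 * N'))⁻¹ := by
      rw [pow_mul]
      refine inv_anti₀ (by positivity) (pow_le_pow_left₀ (by positivity) ?_ _)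
      nlinarith
    have h3 : f w * (1 + x) ^ 2 ≤ 2 * K * (R ^ (2 * N'))⁻¹ * φs n μ w := by
      calc f w * (1 + x) ^ 2 ≤ (K * φs (n + 1 + N') μ w) * (2 * (1 + x ^ 2)) :=
            mul_le_mul (hle w) h1 (by positivity) (by
              have := φs_pos (n + 1 + N') μ w
              positivity)
        _ = 2 * K * ((1 + x ^ 2) ^ N')⁻¹ * φs n μ w := by
            rw [e1, e1, pow_add, pow_add, pow_one]
            field_simp
        _ ≤ 2 * K * (R ^ (2 * N'))⁻¹ * φs n μ w := by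
            gcongr
    linarith

theorem MOMT (h : S_SOFTI) : S_MOMT := by
  intro d hd γ hγ1 hγ2 n hn
  obtain ⟨C1, hC1, hS⟩ := h d hd γ hγ1 hγ2
  obtain ⟨P, hP⟩ : ∃ P : ℝ, P = ∫ w : V d, φ n w := ⟨_, rfl⟩
  have hP0 : 0 ≤ P := by rw [hP]; exact integral_nonneg fun w => (φ_pos n w).le
  have hφi := integrable_φ (d := d) hn
  refine ⟨C1 + 4 + 2 * P, by positivity, ?_⟩
  intro N' f hfm hf0 hfi r F hr hF hfr hfF K μ R hK hμ hR hle v
  have hR0 : 0 < R := by linarith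
  have hμγ : 0 < μ ^ γ := Real.rpow_pos_of_pos hμ γ
  have hφs : Integrable (fun w : V d => φs n μ w) := by
    unfold φs
    exact hφi.comp_smul (inv_ne_zero hμ.ne')
  have hφv : ∫ w : V d, φs n μ w = μ ^ d * P := by
    unfold φs
    rw [Measure.integral_comp_inv_smul volume (fun w : V d => φ n w) μ, hP,
      finrank_euclideanSpace, Fintype.card_fin, abs_of_pos (by positivity), smul_eq_mul]
  have hpt : ∀ w, f w * (μ ^ γ * ((‖w - v‖ / μ) ^ γ + (1 + ‖w‖ / μ) ^ (2 : ℝ))) ≤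
      f w * ‖w - v‖ ^ γ +
        μ ^ γ * (4 * R ^ 2 * f w + 2 * K * (R ^ (2 * N'))⁻¹ * φs n μ w) := by
    intro w
    have h1 := momt_pt n N' hf0 hK hμ hR hle w
    have h2 : μ ^ γ * (‖w - v‖ / μ) ^ γ = ‖w - v‖ ^ γ := by
      rw [Real.div_rpow (norm_nonneg _) hμ.le, mul_div_cancel₀ _ hμγ.ne']
    have h3 : (1 + ‖w‖ / μ) ^ (2 : ℝ) = (1 + ‖w‖ / μ) ^ 2 := by norm_cast
    rw [h3]
    calc f w * (μ ^ γ * ((‖w - v‖ / μ) ^ γ + (1 + ‖w‖ / μ) ^ 2))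
        = f w * (μ ^ γ * (‖w - v‖ / μ) ^ γ) + μ ^ γ * (f w * (1 + ‖w‖ / μ) ^ 2) := by ring
      _ ≤ _ := by
          rw [h2]
          have := mul_le_mul_of_nonneg_left h1 hμγ.le
          linarith
  have hnn : ∀ w, 0 ≤ μ ^ γ * (4 * R ^ 2 * f w + 2 * K * (R ^ (2 * N'))⁻¹ * φs n μ w) := by
    intro w
    have h1 := hf0 w
    have h2 := φs_pos n μ w
    positivity
  have hint1 : Integrable (fun w : V d => 4 * R ^ 2 * f w) := hfi.const_mul _
  have hint2 : Integrable (fun w : V d => 2 * K * (R ^ (2 * N'))⁻¹ * φs n μ w) :=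
    hφs.const_mul _
  have hint : Integrable (fun w : V d =>
      μ ^ γ * (4 * R ^ 2 * f w + 2 * K * (R ^ (2 * N'))⁻¹ * φs n μ w)) :=
    (hint1.add hint2).const_mul _
  have hA : Measurable (fun w : V d => ENNReal.ofReal (f w * ‖w - v‖ ^ γ)) := by
    refine (hfm.mul ?_).ennreal_ofReal
    fun_prop
  have h2 : ∫⁻ w : V d, ENNReal.ofReal
      (μ ^ γ * (4 * R ^ 2 * f w + 2 * K * (R ^ (2 * N'))⁻¹ * φs n μ w)) ≤
      ENNReal.ofReal (μ ^ γ * (4 * R ^ 2 * r + 2 * K * (R ^ (2 * N'))⁻¹ * (μ ^ d * P))) := by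
    rw [← ofReal_integral_eq_lintegral_ofReal hint (ae_of_all _ hnn)]
    apply ENNReal.ofReal_le_ofReal
    rw [integral_const_mul, integral_add hint1 hint2, integral_const_mul, integral_const_mul, hφv]
    gcongr
  have h1 := hS f hfm hf0 hfi r F hr hF hfr hfF v
  have hr0 : 0 ≤ r ^ (1 + γ / d) * F ^ (-γ / d) := by positivity
  unfold momS
  calc ∫⁻ w : V d, ENNReal.ofReal (f w * (μ ^ γ * ((‖w - v‖ / μ) ^ γ + (1 + ‖w‖ / μ) ^ (2 : ℝ))))
      ≤ ∫⁻ w : V d, (ENNReal.ofReal (f w * ‖w - v‖ ^ γ) + ENNReal.ofReal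
        (μ ^ γ * (4 * R ^ 2 * f w + 2 * K * (R ^ (2 * N'))⁻¹ * φs n μ w))) := by
        refine lintegral_mono fun w => ?_
        exact (ENNReal.ofReal_le_ofReal (hpt w)).trans ENNReal.ofReal_add_le
    _ = (∫⁻ w : V d, ENNReal.ofReal (f w * ‖w - v‖ ^ γ)) + ∫⁻ w : V d, ENNReal.ofReal
        (μ ^ γ * (4 * R ^ 2 * f w + 2 * K * (R ^ (2 * N'))⁻¹ * φs n μ w)) :=
        lintegral_add_left hA _
    _ ≤ ENNReal.ofReal (C1 * (r ^ (1 + γ / d) * F ^ (-γ / d))) +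
        ENNReal.ofReal (μ ^ γ * (4 * R ^ 2 * r + 2 * K * (R ^ (2 * N'))⁻¹ * (μ ^ d * P))) :=
        add_le_add h1 h2
    _ = ENNReal.ofReal (C1 * (r ^ (1 + γ / d) * F ^ (-γ / d)) +
        μ ^ γ * (4 * R ^ 2 * r + 2 * K * (R ^ (2 * N'))⁻¹ * (μ ^ d * P))) :=
        (ENNReal.ofReal_add (by positivity) (by positivity)).symm
    _ ≤ _ := by
        apply ENNReal.ofReal_le_ofReal
        obtain ⟨X, hX⟩ : ∃ X, X = r ^ (1 + γ / d) * F ^ (-γ / d) := ⟨_, rfl⟩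
        obtain ⟨Y, hY⟩ : ∃ Y, Y = R ^ 2 * r := ⟨_, rfl⟩
        obtain ⟨Z, hZ⟩ : ∃ Z, Z = K * μ ^ d * (R ^ (2 * N'))⁻¹ := ⟨_, rfl⟩
        have hX0 : 0 ≤ X := by rw [hX]; exact hr0
        have hY0 : 0 ≤ Y := by rw [hY]; positivity
        have hZ0 : 0 ≤ Z := by rw [hZ]; positivity
        have e1 : 4 * R ^ 2 * r + 2 * K * (R ^ (2 * N'))⁻¹ * (μ ^ d * P) = 4 * Y + 2 * P * Z := by
          rw [hY, hZ]
          ring
        rw [e1, ← hX, ← hY, ← hZ]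
        have h3 : C1 * X ≤ (C1 + 4 + 2 * P) * X :=
          mul_le_mul_of_nonneg_right (by linarith) hX0
        have h4 : 4 * Y + 2 * P * Z ≤ (C1 + 4 + 2 * P) * (Y + Z) := by
          have i1 := mul_nonneg hC1 hY0
          have i2 := mul_nonneg hC1 hZ0
          have i3 := mul_nonneg hP0 hY0
          have i4 := mul_nonneg hP0 hZ0
          nlinarith
        have h5 := mul_le_mul_of_nonneg_left h4 hμγ.le
        calc C1 * X + μ ^ γ * (4 * Y + 2 * P * Z)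
            ≤ (C1 + 4 + 2 * P) * X + μ ^ γ * ((C1 + 4 + 2 * P) * (Y + Z)) := add_le_add h3 h5
          _ = _ := by ring

end Pool.Agent.H878.KS
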